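import Pool.Agent.H86.UN.Eight

set_option autoImplicit false

/-!
The elements `k(y, x) = (L_y R_x⁻¹)²` for involutions `x`, `y` of the loop: they are inner mappings
which fix `x` and `y`.
-/

namespace ALoop

open Equiv

variable {Q : Type*} {G : Subgroup (Perm Q)} {L : Q → Perm Q} {J : Perm Q} {e : Q}

/-- `k(y, x) = (L_y R_x⁻¹)²` -/
def kk (L : Q → Perm Q) (J : Perm Q) (y x : Q) : Perm Q :=
  L y * (J * L x * J)⁻¹ * (L y * (J * L x * J)⁻¹)

namespace AL

theorem zz_J (h : AL G L J e) {x : Q} (hx : J x = x) : D L J x * J = J * D L J x := by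
  have h1 := h.D_J x
  rw [hx] at h1
  calc D L J x * J = (J * D L J x * J) * J := by rw [h1]
    _ = J * D L J x * (J * J) := by group
    _ = J * D L J x := by rw [h.JJ1, mul_one]

theorem zz_inn (h : AL G L J e) {x : Q} (hx : J x = x) : D L J x * J ∈ Inn G e := by
  refine ⟨?_, ?_⟩
  · have h1 := h.D_mul_mem x e
    rwa [h.D_e] at h1
  · show (D L J x * J) e = e
    have h1 : (L x)⁻¹ e = x := by rw [Perm.inv_eq_iff_eq]; exact (h.LxLx hx).symm
    unfold D
    rw [Perm.mul_apply, h.Je, Perm.mul_apply, Perm.mul_apply, h1, hx, h.LxLx hx]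

theorem zz_sq (h : AL G L J e) {x : Q} (hx : J x = x) : (D L J x * J) * (D L J x * J) = 1 := by
  calc (D L J x * J) * (D L J x * J) = D L J x * (J * D L J x) * J := by group
    _ = D L J x * (D L J x * J) * J := by rw [h.zz_J hx]
    _ = (D L J x * D L J x) * (J * J) := by group
    _ = 1 := by rw [h.D_sq, h.JJ1, one_mul]

theorem zz_fix (h : AL G L J e) {x : Q} (hx : J x = x) : (D L J x * J) x = x := by
  rw [Perm.mul_apply, hx, h.D_self]

/-- `z_x` commutes with `L_x` -/
theorem zz_L (h : AL G L J e) {x : Q} (hx : J x = x) :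
    (D L J x * J) * L x = L x * (D L J x * J) :=
  h.comL (h.zz_inn hx).1 (h.zz_inn hx).2 (h.zz_fix hx)

/-- `R_x⁻¹ = L_x⁻¹ z_x` -/
theorem Rinv (h : AL G L J e) {x : Q} :
    (J * L x * J)⁻¹ = (L x)⁻¹ * (D L J x * J) := by
  unfold D
  rw [mul_inv_rev, mul_inv_rev, h.Jinv]; group

theorem R_e' (h : AL G L J e) {x : Q} (hx : J x = x) : (J * L x * J) e = x := by
  rw [Perm.mul_apply, Perm.mul_apply, h.Je, h.Le, hx]

theorem R_ap (h : AL G L J e) {x : Q} (hx : J x = x) (q : Q) : (J * L x * J) q = L q x := by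
  have := h.R_apply q x
  rwa [hx] at this

/-- the element `rho = D_y D_x` is the product of the commuting... `L_x rho L_x⁻¹ = D_(xy) J` -/
theorem rho_x (h : AL G L J e) {x : Q} (hx : J x = x) (y : Q) :
    L x * (D L J y * D L J x) * (L x)⁻¹ = D L J (L x y) * J := by
  have h1 := h.D_conj (h.memL x) y
  have h2 := h.D_conj (h.memL x) x
  rw [h.LxLx hx, h.D_e] at h2
  calc L x * (D L J y * D L J x) * (L x)⁻¹ = (L x * D L J y * (L x)⁻¹) * (L x * D L J x * (L x)⁻¹) := by
        group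
    _ = D L J (L x y) * J := by rw [h1, h2]

theorem rho_y (h : AL G L J e) {x y : Q} (hx : J x = x) (hy : J y = y) :
    L y * (D L J y * D L J x) * (L y)⁻¹ = D L J (L x y) * J := by
  have h1 := h.D_conj (h.memL y) x
  have h2 := h.D_conj (h.memL y) y
  rw [h.LxLx hy, h.D_e] at h2
  have h3 : L y x = J (L x y) := by rw [h.aaip, hx, hy]
  have h4 := h.D_J (L x y)
  calc L y * (D L J y * D L J x) * (L y)⁻¹ = (L y * D L J y * (L y)⁻¹) * (L y * D L J x * (L y)⁻¹) := by
        group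
    _ = J * D L J (L y x) := by rw [h1, h2]
    _ = J * (J * D L J (L x y) * J) := by rw [h3, h4]
    _ = (J * J) * D L J (L x y) * J := by group
    _ = D L J (L x y) * J := by rw [h.JJ1, one_mul]

/-- `rho` in terms of the inner mappings -/
theorem rho_z (h : AL G L J e) {x y : Q} (hx : J x = x) :
    D L J y * D L J x = (D L J y * J) * (D L J x * J) := by
  calc D L J y * D L J x = D L J y * (J * J) * D L J x := by rw [h.JJ1, mul_one]
    _ = (D L J y * J) * (J * D L J x) := by group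
    _ = (D L J y * J) * (D L J x * J) := by rw [h.zz_J hx]

theorem rho_inn (h : AL G L J e) {x y : Q} (hx : J x = x) (hy : J y = y) :
    D L J y * D L J x ∈ Inn G e := by
  rw [h.rho_z hx]; exact (Inn G e).mul_mem (h.zz_inn hy) (h.zz_inn hx)

/-- the flexible law at an involution -/
theorem flex (h : AL G L J e) {x : Q} (hx : J x = x) (p : Q) : L x (L p x) = L (L x p) x := by
  have h1 := h.comLR x
  have h2 := congrArg (fun g : Perm Q => g p) h1
  simp only [Perm.mul_apply] at h2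
  have h3 := h.R_ap hx p
  have h4 := h.R_ap hx (L x p)
  simp only [Perm.mul_apply] at h3 h4
  rw [h3, h4] at h2
  exact h2

theorem rho_sq (h : AL G L J e) {x y : Q} :
    (D L J y * D L J x) * D L J x = D L J y := by
  rw [mul_assoc, h.D_sq, mul_one]

/-- the basic facts about `p = x \\ y` -/
theorem mid (h : AL G L J e) {x y : Q} (hx : J x = x) (hy : J y = y) :
    L y (J ((L x)⁻¹ y)) = x := by
  set p := (L x)⁻¹ y with hp
  have hxp : L x p = y := by rw [hp, apply_inv']
  have hJJ := h.JJ1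
  have hxe : (L x)⁻¹ e = x := by rw [Perm.inv_eq_iff_eq]; exact (h.LxLx hx).symm
  -- `kap`
  set κ := (L y)⁻¹ * L x * L p with hκ
  have hκG : κ ∈ G := G.mul_mem (G.mul_mem (G.inv_mem (h.memL y)) (h.memL x)) (h.memL p)
  have hκe : κ e = e := by
    rw [hκ, Perm.mul_apply, Perm.mul_apply, h.Le, hxp, Perm.inv_eq_iff_eq, h.Le]
  have hκx : κ x = x := by
    rw [hκ, Perm.mul_apply, Perm.mul_apply, h.flex hx, hxp, Perm.inv_eq_iff_eq]
  have hκJ : κ * J = J * κ := h.comJ κ hκG hκe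
  have hκD : Commute κ (D L J x) := (h.D_cent hκG x).2 hκx
  -- `rho`
  set ρ := D L J y * D L J x with hρ
  have hρI : ρ ∈ Inn G e := h.rho_inn hx hy
  have r1 := h.rho_x hx y
  have r2 := h.rho_y hx hy
  have cxy : Commute ((L x)⁻¹ * L y) ρ := by
    show (L x)⁻¹ * L y * ρ = ρ * ((L x)⁻¹ * L y)
    have e1 : L y * ρ * (L y)⁻¹ = L x * ρ * (L x)⁻¹ := by rw [r1, r2]
    calc (L x)⁻¹ * L y * ρ = (L x)⁻¹ * (L y * ρ * (L y)⁻¹) * L y := by group
      _ = (L x)⁻¹ * (L x * ρ * (L x)⁻¹) * L y := by rw [e1]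
      _ = ρ * ((L x)⁻¹ * L y) := by group
  -- `z_x p = J p`
  have hDx : (L x)⁻¹ * J * L x = D L J x := by
    have h1 := h.D_conj (G.inv_mem (h.memL x)) e
    rw [h.D_e, hxe, inv_inv] at h1
    exact h1
  have hDp : D L J p = (L x)⁻¹ * D L J y * L x := by
    have h1 := h.D_conj (G.inv_mem (h.memL x)) y
    rw [inv_inv, ← hp] at h1
    exact h1.symm
  have hDpJ : D L J p * J = (L x)⁻¹ * ρ * L x := by
    have h1 : L x * J = D L J x * L x := by unfold D; group
    calc D L J p * J = (L x)⁻¹ * D L J y * (L x * J) := by rw [hDp]; group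
      _ = (L x)⁻¹ * D L J y * (D L J x * L x) := by rw [h1]
      _ = (L x)⁻¹ * ρ * L x := by rw [hρ]; group
  have hzρ : (D L J x * J) * ρ * (D L J x * J) = ρ⁻¹ := by
    have h1 : J * ρ = ρ * J := (h.comJ ρ hρI.1 hρI.2).symm
    calc (D L J x * J) * ρ * (D L J x * J) = D L J x * (J * ρ) * (D L J x * J) := by group
      _ = D L J x * (ρ * J) * (J * D L J x) := by rw [h1, h.zz_J hx]
      _ = D L J x * ρ * (J * J) * D L J x := by group
      _ = D L J x * D L J y * (D L J x * D L J x) := by rw [hJJ, hρ]; group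
      _ = D L J x * D L J y := by rw [h.D_sq, mul_one]
      _ = ρ⁻¹ := by
        have h2 : (D L J x)⁻¹ = D L J x := inv_eq_of_mul_eq_one_left (h.D_sq x)
        have h3 : (D L J y)⁻¹ = D L J y := inv_eq_of_mul_eq_one_left (h.D_sq y)
        rw [hρ, mul_inv_rev, h2, h3]
  have hzi : (D L J x * J)⁻¹ = D L J x * J := inv_eq_of_mul_eq_one_left (h.zz_sq hx)
  have hzp : (D L J x * J) p = J p := by
    apply h.D_inj
    rw [← h.D_conj (h.zz_inn hx).1, ← h.D_J, hzi]
    have h1 : (D L J x * J) * L x = L x * (D L J x * J) := h.zz_L hx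
    have h1' : (D L J x * J) * (L x)⁻¹ = (L x)⁻¹ * (D L J x * J) :=
      (show Commute (D L J x * J) (L x) from h1).inv_right
    have h2 : (D L J x * J) * (D L J p * J) * (D L J x * J) = (D L J p * J)⁻¹ := by
      rw [hDpJ]
      calc (D L J x * J) * ((L x)⁻¹ * ρ * L x) * (D L J x * J)
          = ((D L J x * J) * (L x)⁻¹) * ρ * (L x * (D L J x * J)) := by group
        _ = (L x)⁻¹ * ((D L J x * J) * ρ * (D L J x * J)) * L x := by rw [h1', ← h1]; group
        _ = ((L x)⁻¹ * ρ * L x)⁻¹ := by rw [hzρ]; group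
    have h3 : (D L J p * J)⁻¹ = J * D L J p := by
      have h4 : (D L J p)⁻¹ = D L J p := inv_eq_of_mul_eq_one_left (h.D_sq p)
      rw [mul_inv_rev, h4, h.Jinv]
    have h5 : (D L J x * J) * J = J * (D L J x * J) := (h.comJ _ (h.zz_inn hx).1 (h.zz_inn hx).2)
    calc (D L J x * J) * D L J p * (D L J x * J)
        = (D L J x * J) * (D L J p * (J * J)) * (D L J x * J) := by rw [hJJ, mul_one]
      _ = (D L J x * J) * (D L J p * J) * (J * (D L J x * J)) := by group
      _ = (D L J x * J) * (D L J p * J) * ((D L J x * J) * J) := by rw [h5]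
      _ = (D L J x * J) * (D L J p * J) * (D L J x * J) * J := by group
      _ = J * D L J p * J := by rw [h2, h3]
  -- `R_p = D_x L_p D_x`
  have hRp : J * L (J p) * J = D L J x * L p * D L J x := by
    have h1 := h.equi _ (h.zz_inn hx).1 (h.zz_inn hx).2 p
    rw [hzp, hzi] at h1
    rw [← h1]
    have h2 := h.zz_J hx
    calc J * ((D L J x * J) * L p * (D L J x * J)) * J
        = J * (D L J x * J) * L p * D L J x * (J * J) := by group
      _ = J * (J * D L J x) * L p * D L J x := by rw [hJJ, mul_one, h2]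
      _ = (J * J) * D L J x * L p * D L J x := by group
      _ = D L J x * L p * D L J x := by rw [hJJ, one_mul]
  -- `T_p = rho⁻¹`
  have hLp : L p = (L x)⁻¹ * L y * κ := by rw [hκ]; group
  have hT : L p * (J * L (J p) * J)⁻¹ = ρ⁻¹ := by
    have i1 : (D L J x)⁻¹ = D L J x := inv_eq_of_mul_eq_one_left (h.D_sq x)
    have i2 : (D L J y)⁻¹ = D L J y := inv_eq_of_mul_eq_one_left (h.D_sq y)
    have e1 : L x * D L J x = J * L x := by
      have := h.D_conj (h.memL x) x
      rw [h.LxLx hx, h.D_e] at this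
      calc L x * D L J x = (L x * D L J x * (L x)⁻¹) * L x := by group
        _ = J * L x := by rw [this]
    have e2 : (L y)⁻¹ * J = D L J y * (L y)⁻¹ := by
      have := h.D_conj (h.memL y) y
      rw [h.LxLx hy, h.D_e] at this
      calc (L y)⁻¹ * J = (L y)⁻¹ * (L y * D L J y * (L y)⁻¹) := by rw [this]
        _ = D L J y * (L y)⁻¹ := by group
    have e3 : κ * D L J x * κ⁻¹ = D L J x := by
      rw [hκD.eq]; group
    rw [hRp]
    have e4 : (D L J x * L p * D L J x)⁻¹ = D L J x * (L p)⁻¹ * D L J x := by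
      rw [mul_inv_rev, mul_inv_rev, i1]; group
    rw [e4, hLp]
    calc (L x)⁻¹ * L y * κ * (D L J x * ((L x)⁻¹ * L y * κ)⁻¹ * D L J x)
        = (L x)⁻¹ * L y * (κ * D L J x * κ⁻¹) * (L y)⁻¹ * (L x * D L J x) := by group
      _ = (L x)⁻¹ * L y * D L J x * ((L y)⁻¹ * J) * L x := by rw [e3, e1]; group
      _ = ((L x)⁻¹ * L y) * (D L J x * D L J y) * ((L x)⁻¹ * L y)⁻¹ := by rw [e2]; group
      _ = ((L x)⁻¹ * L y) * ρ⁻¹ * ((L x)⁻¹ * L y)⁻¹ := by
        have : D L J x * D L J y = ρ⁻¹ := by rw [hρ, mul_inv_rev, i1, i2]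
        rw [this]
      _ = ρ⁻¹ := by rw [(cxy.inv_right).eq]; group
  -- `rho` commutes with `L p`
  have hρp : ρ⁻¹ p = p := by
    rw [← hT, Perm.mul_apply]
    have h1 : (J * L (J p) * J) e = p := by rw [h.R_apply, h.Le1, Perm.one_apply]
    have h2 : (J * L (J p) * J)⁻¹ p = e := by rw [Perm.inv_eq_iff_eq, h1]
    rw [h2, h.Le]
  have cLp : Commute (L p) ρ := by
    have h1 := h.comL ((Inn G e).inv_mem hρI).1 ((Inn G e).inv_mem hρI).2 hρp
    have h2 : Commute ρ⁻¹ (L p) := h1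
    have h3 : Commute (L p) ρ⁻¹⁻¹ := h2.symm.inv_right
    rwa [inv_inv] at h3
  have cκ : Commute κ ρ := by
    have h1 : κ = ((L x)⁻¹ * L y)⁻¹ * L p := by rw [hLp]; group
    rw [h1]
    exact cxy.inv_left.mul_left cLp
  have cκy : Commute κ (D L J y) := by
    have h1 : D L J y = ρ * D L J x := (h.rho_sq).symm
    rw [h1]
    exact cκ.mul_right hκD
  have hκy : κ y = y := (h.D_cent hκG y).1 cκy
  have hκp : κ p = p := by
    have h1 := h.aut hκG hκe x p
    rw [hxp, hκy, hκx] at h1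
    apply (L x).injective
    rw [← h1, hxp]
  have hκJp : κ (J p) = J p := by
    have := congrArg (fun g : Perm Q => g p) hκJ
    simp only [Perm.mul_apply] at this
    rw [this, hκp]
  have h1 : κ (J p) = (L y)⁻¹ x := by
    rw [hκ, Perm.mul_apply, Perm.mul_apply, h.LJ, h.Le]
  rw [← hκJp, h1, apply_inv']

/-- `k(y, x)` is an inner mapping which fixes `x` -/
theorem kk_left (h : AL G L J e) {x y : Q} (hx : J x = x) (hy : J y = y) :
    kk L J y x ∈ Inn G e ∧ kk L J y x x = x := by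
  have hRe : (J * L x * J)⁻¹ e = x := by
    rw [Perm.inv_eq_iff_eq, h.R_ap hx, h.LxLx hx]
  have hG : kk L J y x ∈ G := by
    have h1 : J * L x * J ∈ G := h.JG _ (h.memL x)
    exact G.mul_mem (G.mul_mem (h.memL y) (G.inv_mem h1)) (G.mul_mem (h.memL y) (G.inv_mem h1))
  refine ⟨⟨hG, ?_⟩, ?_⟩
  · show kk L J y x e = e
    have h1 : (J * L x * J)⁻¹ (L y x) = y := by rw [Perm.inv_eq_iff_eq, h.R_ap hx]
    unfold kk
    rw [Perm.mul_apply, Perm.mul_apply, Perm.mul_apply, hRe, h1, h.LxLx hy]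
  · have h1 : (J * L x * J)⁻¹ x = e := by rw [Perm.inv_eq_iff_eq, h.R_ap hx, h.Le1, Perm.one_apply]
    have h2 : (J * L x * J)⁻¹ y = J ((L x)⁻¹ y) := by
      rw [Perm.inv_eq_iff_eq, h.R_ap hx]
      have h3 := h.aaip x ((L x)⁻¹ y)
      rw [apply_inv', hx, hy] at h3
      exact h3
    unfold kk
    rw [Perm.mul_apply, Perm.mul_apply, Perm.mul_apply, h1, h.Le, h2, h.mid hx hy]

theorem kk_inv (h : AL G L J e) {x y : Q} (hx : J x = x) (hy : J y = y) :
    kk L J x y = (kk L J y x)⁻¹ := by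
  have h1 := (h.kk_left hx hy).1
  have h2 := h.comJ _ h1.1 h1.2
  have hJJ := h.JJ1
  have h3 : J * kk L J y x * J = kk L J y x := by
    rw [← h2, mul_assoc, hJJ, mul_one]
  rw [← h3]
  unfold kk
  have h4 := h.Jinv
  have e1 : (J * L y * J)⁻¹ = J * (L y)⁻¹ * J := by rw [mul_inv_rev, mul_inv_rev, h4, mul_assoc]
  have e2 : (J * L x * J)⁻¹ = J * (L x)⁻¹ * J := by rw [mul_inv_rev, mul_inv_rev, h4, mul_assoc]
  have e3 : (J * (L y * (J * (L x)⁻¹ * J) * (L y * (J * (L x)⁻¹ * J))) * J)⁻¹ =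
      J * (J * L x * J * (L y)⁻¹ * (J * L x * J * (L y)⁻¹)) * J := by
    simp only [mul_inv_rev, h4, inv_inv, mul_assoc]
  rw [e1, e2, e3]
  calc L x * (J * (L y)⁻¹ * J) * (L x * (J * (L y)⁻¹ * J))
      = (J * J) * (L x * J * (L y)⁻¹ * J * L x * J * (L y)⁻¹ * J) := by
        rw [hJJ, one_mul]; group
    _ = J * (J * L x * J * (L y)⁻¹ * (J * L x * J * (L y)⁻¹)) * J := by group

theorem kk_right (h : AL G L J e) {x y : Q} (hx : J x = x) (hy : J y = y) : kk L J y x y = y := by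
  have h1 := (h.kk_left hy hx).2
  rw [h.kk_inv hx hy, Perm.inv_eq_iff_eq] at h1
  exact h1.symm

end AL
end ALoop
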